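import Pool.Agent.TH298.MI.Pol

/-!
Critical points near an isolated zero: the two bounds of `∏ (1 - v_j x)` at `x = 2 π i / ∑ u_k`.
-/

set_option autoImplicit false

namespace Pool.Agent.N816.PM

open Polynomial Set

variable {m : ℕ}

/-- `(1 - w) e^w` is close to `1` -/
theorem fac {w : ℂ} (hw : ‖w‖ ≤ 1) : ‖(1 - w) * Complex.exp w - 1‖ ≤ 3 * ‖w‖ ^ 2 := by
  have h := Complex.norm_exp_sub_one_sub_id_le hw
  have e : (1 - w) * Complex.exp w - 1 = (1 - w) * (Complex.exp w - 1 - w) - w ^ 2 := by ring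
  rw [e]
  have h1 : ‖1 - w‖ ≤ 2 := by
    calc ‖1 - w‖ ≤ ‖(1:ℂ)‖ + ‖w‖ := norm_sub_le _ _
      _ ≤ 2 := by rw [norm_one]; linarith
  calc _ ≤ ‖(1 - w) * (Complex.exp w - 1 - w)‖ + ‖w ^ 2‖ := norm_sub_le _ _
    _ ≤ 2 * ‖w‖ ^ 2 + ‖w‖ ^ 2 := by
      refine add_le_add ?_ (by rw [norm_pow])
      rw [norm_mul]
      exact mul_le_mul h1 h (norm_nonneg _) (by norm_num)
    _ = _ := by ring

/-- the derivative of `y ∏ (1 - v_j y)` -/
theorem hasd {u v : Fin m → ℂ}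
    (hG : ∀ w : ℂ, ∏ k, (1 - u k * w) = ∏ j, (1 - v j * w) -
      w * ∑ j, v j * ∏ i ∈ Finset.univ.erase j, (1 - v i * w)) (y : ℂ) :
    HasDerivAt (fun y => y * ∏ j, (1 - v j * y)) (∏ k, (1 - u k * y)) y := by
  set Q : ℂ[X] := ∏ j, (1 - C (v j) * X) with hQ
  have hder : derivative Q = -∑ j, C (v j) * ∏ i ∈ Finset.univ.erase j, (1 - C (v i) * X) := by
    rw [hQ, derivative_prod_finset, ← Finset.sum_neg_distrib]
    refine Finset.sum_congr rfl fun j _ => ?_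
    simp
    ring
  have h := (X * Q).hasDerivAt y
  have e1 : (fun y => y * ∏ j, (1 - v j * y)) = fun y => (X * Q).eval y := by
    funext y
    simp [hQ, eval_prod]
  have e2 : (derivative (X * Q)).eval y = ∏ k, (1 - u k * y) := by
    rw [hG y, derivative_mul, derivative_X, hder]
    simp only [hQ, eval_prod, eval_sub, eval_one, eval_mul, eval_C, eval_X, eval_add,
      eval_neg, eval_finsetSum]
    ring
  rw [e1, ← e2]
  exact h

/-- the products are close to an exponential -/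
theorem prod_close {u : Fin m → ℂ} {y : ℂ} {ε : ℝ} (h1 : ∀ k, ‖u k * y‖ ≤ 1)
    (h2 : ∑ k, ‖u k * y‖ ^ 2 ≤ ε) (h3 : 3 * ε ≤ 1) (hre : ((∑ k, u k) * y).re = 0) :
    ‖∏ k, (1 - u k * y) - Complex.exp (-((∑ k, u k) * y))‖ ≤ 6 * ε := by
  have e1 : ∏ k, (1 - u k * y) - Complex.exp (-((∑ k, u k) * y)) =
      Complex.exp (-((∑ k, u k) * y)) *
        (∏ k, (1 + ((1 - u k * y) * Complex.exp (u k * y) - 1)) - 1) := by
    have : ∏ k, (1 + ((1 - u k * y) * Complex.exp (u k * y) - 1)) =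
        (∏ k, (1 - u k * y)) * Complex.exp ((∑ k, u k) * y) := by
      rw [Finset.sum_mul, Complex.exp_sum, ← Finset.prod_mul_distrib]
      refine Finset.prod_congr rfl fun k _ => ?_
      ring
    rw [this, mul_sub, mul_one, mul_comm (∏ k, (1 - u k * y)), ← mul_assoc, ← Complex.exp_add,
      neg_add_cancel, Complex.exp_zero, one_mul]
  rw [e1, norm_mul, Complex.norm_exp, Complex.neg_re, hre, neg_zero, Real.exp_zero, one_mul]
  refine (Finset.norm_prod_one_add_sub_one_le _ _).trans ?_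
  have h4 : ∑ k, ‖(1 - u k * y) * Complex.exp (u k * y) - 1‖ ≤ 3 * ε := by
    calc _ ≤ ∑ k, 3 * ‖u k * y‖ ^ 2 := Finset.sum_le_sum fun k _ => fac (h1 k)
      _ = 3 * ∑ k, ‖u k * y‖ ^ 2 := by rw [Finset.mul_sum]
      _ ≤ _ := by linarith
  have hnn : 0 ≤ ∑ k, ‖(1 - u k * y) * Complex.exp (u k * y) - 1‖ :=
    Finset.sum_nonneg fun k _ => norm_nonneg _
  have h5 : 0 ≤ 3 * ε := hnn.trans h4
  have h6 := Real.abs_exp_sub_one_le (x := 3 * ε) (by rw [abs_of_nonneg h5]; exact h3)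
  rw [abs_of_nonneg h5] at h6
  have h7 := Real.exp_le_exp.2 h4
  have h8 := le_abs_self (Real.exp (3 * ε) - 1)
  linarith

/-- upper bound at `x = 2 π i / ∑ u_k` -/
theorem upper {u v : Fin m → ℂ}
    (hG : ∀ w : ℂ, ∏ k, (1 - u k * w) = ∏ j, (1 - v j * w) -
      w * ∑ j, v j * ∏ i ∈ Finset.univ.erase j, (1 - v i * w)) {x : ℂ} {ε : ℝ}
    (hx : (∑ k, u k) * x = 2 * Real.pi * Complex.I) (h1 : ∀ k, ‖u k * x‖ ≤ 1)
    (h2 : ∑ k, ‖u k * x‖ ^ 2 ≤ ε) (h3 : 3 * ε ≤ 1) :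
    ‖∏ j, (1 - v j * x)‖ ≤ 6 * ε := by
  set τ : ℂ := ∑ k, u k with hτ
  have hI : (2 * Real.pi * Complex.I : ℂ) ≠ 0 := by
    simp [Real.pi_ne_zero, Complex.I_ne_zero]
  have hτ0 : τ ≠ 0 := by
    intro h; rw [h, zero_mul] at hx; exact hI hx.symm
  have hx0 : x ≠ 0 := by
    intro h; rw [h, mul_zero] at hx; exact hI hx.symm
  set D : ℝ → ℂ := fun s => ((s : ℂ) * x) * ∏ j, (1 - v j * ((s : ℂ) * x)) -
    (1 - Complex.exp (-(τ * ((s : ℂ) * x)))) / τ with hD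
  set D' : ℝ → ℂ := fun s => (∏ k, (1 - u k * ((s : ℂ) * x)) -
    Complex.exp (-(τ * ((s : ℂ) * x)))) * x with hD'
  have hder : ∀ s : ℝ, HasDerivAt D (D' s) s := by
    intro s
    have a1 : HasDerivAt (fun t : ℂ => t * x) x (s : ℂ) := by
      simpa using (hasDerivAt_id (s : ℂ)).mul_const x
    have a2 := (hasd hG ((s : ℂ) * x)).comp (s : ℂ) a1
    have a3 : HasDerivAt (fun t : ℂ => (1 - Complex.exp (-(τ * (t * x)))) / τ)
        (Complex.exp (-(τ * ((s : ℂ) * x))) * x) (s : ℂ) := by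
      have b1 : HasDerivAt (fun t : ℂ => -(τ * (t * x))) (-(τ * x)) (s : ℂ) :=
        (a1.const_mul τ).neg
      have b2 := (b1.cexp.const_sub 1).div_const τ
      have e : Complex.exp (-(τ * ((s : ℂ) * x))) * x =
          -(Complex.exp (-(τ * ((s : ℂ) * x))) * -(τ * x)) / τ := by
        rw [eq_div_iff hτ0]
        ring
      rw [e]
      exact b2
    have a4 := (a2.sub a3).comp_ofReal
    have e : D' s = (∏ k, (1 - u k * ((s : ℂ) * x))) * x -
        Complex.exp (-(τ * ((s : ℂ) * x))) * x := by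
      simp only [hD']
      ring
    rw [e]
    exact a4
  have hb : ∀ s ∈ Ico (0 : ℝ) 1, ‖D' s‖ ≤ 6 * ε * ‖x‖ := by
    intro s hs
    rw [hD']
    simp only
    rw [norm_mul]
    refine mul_le_mul_of_nonneg_right ?_ (norm_nonneg _)
    have hs1 : ‖(s : ℂ)‖ ≤ 1 := by
      rw [Complex.norm_real, Real.norm_of_nonneg hs.1]; exact hs.2.le
    have hk : ∀ k, ‖u k * ((s : ℂ) * x)‖ ≤ ‖u k * x‖ := by
      intro k
      have : u k * ((s : ℂ) * x) = (s : ℂ) * (u k * x) := by ring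
      rw [this, norm_mul]
      exact mul_le_of_le_one_left (norm_nonneg _) hs1
    refine prod_close (fun k => (hk k).trans (h1 k)) ?_ h3 ?_
    · refine le_trans (Finset.sum_le_sum fun k _ => ?_) h2
      exact pow_le_pow_left₀ (norm_nonneg _) (hk k) 2
    · rw [← hτ]
      have : τ * ((s : ℂ) * x) = (s : ℂ) * (τ * x) := by ring
      rw [this, hx]
      simp
  have hmv := norm_image_sub_le_of_norm_deriv_le_segment_01' (f := D) (f' := D')
    (fun s _ => (hder s).hasDerivWithinAt) hb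
  have e0 : D 0 = 0 := by rw [hD]; simp
  have e1 : D 1 = x * ∏ j, (1 - v j * x) := by
    rw [hD]
    simp only [Complex.ofReal_one, one_mul]
    rw [hx, Complex.exp_neg, Complex.exp_two_pi_mul_I]
    simp
  rw [e0, e1, sub_zero, norm_mul, mul_comm] at hmv
  exact le_of_mul_le_mul_right hmv (norm_pos_iff.2 hx0)

/-- lower bound when `(∑ v_j) x = π i` -/
theorem lower {v : Fin m → ℂ} {x : ℂ}
    (hx : (∑ j, v j) * x = Real.pi * Complex.I) (h1 : ∀ j, ‖v j * x‖ ≤ 2 / 5) :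
    Real.exp (-(6 * ∑ j, ‖v j * x‖ ^ 2)) ≤ ‖∏ j, (1 - v j * x)‖ := by
  have e1 : ‖∏ j, (1 - v j * x)‖ = ∏ j, ‖(1 - v j * x) * Complex.exp (v j * x)‖ := by
    rw [← norm_prod, Finset.prod_mul_distrib, ← Complex.exp_sum, ← Finset.sum_mul, hx, norm_mul,
      Complex.norm_exp]
    simp
  rw [e1, Finset.mul_sum, ← Finset.sum_neg_distrib, Real.exp_sum]
  refine Finset.prod_le_prod (fun j _ => (Real.exp_pos _).le) fun j _ => ?_
  set y : ℝ := ‖v j * x‖ with hy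
  have hy0 : 0 ≤ y := norm_nonneg _
  have hy1 : y ≤ 2 / 5 := h1 j
  have h2 := fac (w := v j * x) (by rw [← hy]; linarith)
  have h3 : 1 - 3 * y ^ 2 ≤ ‖(1 - v j * x) * Complex.exp (v j * x)‖ := by
    have h4 : ‖(1 : ℂ)‖ ≤ ‖(1 - v j * x) * Complex.exp (v j * x)‖ +
        ‖(1 - v j * x) * Complex.exp (v j * x) - 1‖ := by
      have := norm_sub_le ((1 - v j * x) * Complex.exp (v j * x))
        ((1 - v j * x) * Complex.exp (v j * x) - 1)
      rwa [sub_sub_cancel] at this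
    rw [norm_one] at h4
    rw [← hy] at h2
    linarith
  refine le_trans ?_ h3
  set t : ℝ := 3 * y ^ 2 with ht
  have ht0 : 0 ≤ t := by positivity
  have ht1 : t ≤ 1 / 2 := by rw [ht]; nlinarith
  have e2 : -(6 * y ^ 2) = -(2 * t) := by rw [ht]; ring
  rw [e2, Real.exp_neg]
  have h5 : 1 + 2 * t ≤ Real.exp (2 * t) := by linarith [Real.add_one_le_exp (2 * t)]
  rw [inv_le_iff_one_le_mul₀ (Real.exp_pos _)]
  nlinarith

end Pool.Agent.N816.PM
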