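import Pool.Agent.N816.PM.Core

/-!
Jensen's inequality for `∏ (1 - v_j x)` and the bound of `∑ |v_j|^2`.
-/

set_option autoImplicit false

namespace Pool.Agent.N816.PM

open Polynomial Set

variable {m : ℕ}

/-- growth of `∏ (1 - v_j y)` -/
theorem growth {u v : Fin m → ℂ}
    (hG : ∀ w : ℂ, ∏ k, (1 - u k * w) = ∏ j, (1 - v j * w) -
      w * ∑ j, v j * ∏ i ∈ Finset.univ.erase j, (1 - v i * w)) {y : ℂ} (hy : y ≠ 0) :
    ‖∏ j, (1 - v j * y)‖ ≤ Real.exp (‖y‖ * ∑ k, ‖u k‖) := by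
  set D : ℝ → ℂ := fun s => ((s : ℂ) * y) * ∏ j, (1 - v j * ((s : ℂ) * y)) with hD
  set D' : ℝ → ℂ := fun s => (∏ k, (1 - u k * ((s : ℂ) * y))) * y with hD'
  have hder : ∀ s : ℝ, HasDerivAt D (D' s) s := by
    intro s
    have a1 : HasDerivAt (fun t : ℂ => t * y) y (s : ℂ) := by
      simpa using (hasDerivAt_id (s : ℂ)).mul_const y
    have a2 := (hasd hG ((s : ℂ) * y)).comp (s : ℂ) a1
    exact a2.comp_ofReal
  have hb : ∀ s ∈ Ico (0 : ℝ) 1, ‖D' s‖ ≤ Real.exp (‖y‖ * ∑ k, ‖u k‖) * ‖y‖ := by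
    intro s hs
    rw [hD']
    simp only
    rw [norm_mul]
    refine mul_le_mul_of_nonneg_right ?_ (norm_nonneg _)
    rw [norm_prod, Finset.mul_sum, Real.exp_sum]
    refine Finset.prod_le_prod (fun _ _ => norm_nonneg _) fun k _ => ?_
    have hs1 : ‖(s : ℂ)‖ ≤ 1 := by
      rw [Complex.norm_real, Real.norm_of_nonneg hs.1]; exact hs.2.le
    have h1 : ‖u k * ((s : ℂ) * y)‖ ≤ ‖y‖ * ‖u k‖ := by
      have : u k * ((s : ℂ) * y) = (s : ℂ) * (y * u k) := by ring
      rw [this, norm_mul, ← norm_mul y]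
      exact mul_le_of_le_one_left (norm_nonneg _) hs1
    calc ‖1 - u k * ((s : ℂ) * y)‖ ≤ ‖(1 : ℂ)‖ + ‖u k * ((s : ℂ) * y)‖ := norm_sub_le _ _
      _ ≤ ‖y‖ * ‖u k‖ + 1 := by rw [norm_one]; linarith
      _ ≤ _ := Real.add_one_le_exp _
  have hmv := norm_image_sub_le_of_norm_deriv_le_segment_01' (f := D) (f' := D')
    (fun s _ => (hder s).hasDerivWithinAt) hb
  have e0 : D 0 = 0 := by rw [hD]; simp
  have e1 : D 1 = y * ∏ j, (1 - v j * y) := by rw [hD]; simp
  rw [e0, e1, sub_zero, norm_mul, mul_comm] at hmv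
  exact le_of_mul_le_mul_right hmv (norm_pos_iff.2 hy)

/-- Mahler measure of a linear factor -/
theorem mlin (b : ℂ) : (C (-b) * X + C 1 : ℂ[X]).mahlerMeasure = max ‖b‖ 1 := by
  by_cases hb : b = 0
  · rw [hb]
    simp
  · rw [mahlerMeasure_C_mul_X_add_C (neg_ne_zero.2 hb), norm_neg, norm_one]

/-- Jensen's inequality -/
theorem jen {u v : Fin m → ℂ}
    (hG : ∀ w : ℂ, ∏ k, (1 - u k * w) = ∏ j, (1 - v j * w) -
      w * ∑ j, v j * ∏ i ∈ Finset.univ.erase j, (1 - v i * w)) {R : ℝ} (hR : 0 < R) :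
    ∑ j, Real.log (max (R * ‖v j‖) 1) ≤ R * ∑ k, ‖u k‖ := by
  set F : ℂ[X] := ∏ j, (C (-(v j * R)) * X + C 1) with hF
  have hprod : ∀ s : Finset (Fin m), (∏ j ∈ s, (C (-(v j * R)) * X + C 1 : ℂ[X])).mahlerMeasure =
      ∏ j ∈ s, max (R * ‖v j‖) 1 := by
    intro s
    classical
    induction s using Finset.induction_on with
    | empty => simp
    | insert i s hi ih =>
      rw [Finset.prod_insert hi, mahlerMeasure_mul, ih, Finset.prod_insert hi, mlin, norm_mul,
        Complex.norm_real, Real.norm_of_nonneg hR.le, mul_comm R]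
  have e1 : F.logMahlerMeasure = ∑ j, Real.log (max (R * ‖v j‖) 1) := by
    rw [logMahlerMeasure_eq_log_MahlerMeasure, hF, hprod, Real.log_prod]
    intro j _
    exact (lt_of_lt_of_le one_pos (le_max_right _ _)).ne'
  rw [← e1, logMahlerMeasure_def]
  refine Real.circleAverage_mono_on_of_le_circle ?_ ?_
  · exact (analyticOnNhd_id.aeval_polynomial F).meromorphicOn.circleIntegrable_log_norm
  · intro x hx
    have hx1 : ‖x‖ = 1 := by simpa using hx
    have hx0 : (R : ℂ) * x ≠ 0 := by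
      refine mul_ne_zero (by exact_mod_cast hR.ne') ?_
      intro h; rw [h, norm_zero] at hx1; exact zero_ne_one hx1
    have e2 : F.eval x = ∏ j, (1 - v j * ((R : ℂ) * x)) := by
      rw [hF, eval_prod]
      refine Finset.prod_congr rfl fun j _ => ?_
      simp only [eval_add, eval_mul, eval_C, eval_X]
      ring
    have h3 := growth hG hx0
    rw [← e2, norm_mul, hx1, mul_one, Complex.norm_real, Real.norm_of_nonneg hR.le] at h3
    rcases eq_or_ne (F.eval x) 0 with h0 | h0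
    · simp only [h0, norm_zero, Real.log_zero]
      exact mul_nonneg hR.le (Finset.sum_nonneg fun _ _ => norm_nonneg _)
    · calc Real.log ‖F.eval x‖ ≤ Real.log (Real.exp (R * ∑ k, ‖u k‖)) :=
            Real.log_le_log (norm_pos_iff.2 h0) h3
        _ = _ := Real.log_exp _

/-- the dyadic inequality -/
theorem dyadic {y : ℝ} (hy0 : 0 ≤ y) (hy1 : y ≤ 1) (n : ℕ) :
    y ^ 2 ≤ (1 / 4) ^ n +
      ∑ i ∈ Finset.range n, ((1 / 4) ^ i / Real.log 2) * Real.log (max (2 ^ (i + 2) * y) 1) := by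
  have hl : 0 < Real.log 2 := Real.log_pos (by norm_num)
  have hnn : ∀ i : ℕ, 0 ≤ ((1 / 4 : ℝ) ^ i / Real.log 2) *
      Real.log (max (2 ^ (i + 2) * y) 1) := by
    intro i
    exact mul_nonneg (by positivity) (Real.log_nonneg (le_max_right _ _))
  induction n with
  | zero =>
    simp only [pow_zero, Finset.range_zero, Finset.sum_empty, add_zero]
    nlinarith
  | succ n ih =>
    rcases le_or_gt y ((1 / 2) ^ (n + 1)) with h | h
    · have h1 : y ^ 2 ≤ (1 / 4) ^ (n + 1) := by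
        calc y ^ 2 ≤ ((1 / 2 : ℝ) ^ (n + 1)) ^ 2 := pow_le_pow_left₀ hy0 h 2
          _ = (1 / 4) ^ (n + 1) := by rw [← pow_mul, mul_comm, pow_mul]; norm_num
      have := Finset.sum_nonneg (s := Finset.range (n + 1)) fun i _ => hnn i
      linarith
    · rw [Finset.sum_range_succ]
      have h2 : (2 : ℝ) ≤ max (2 ^ (n + 2) * y) 1 := by
        refine le_trans ?_ (le_max_left _ _)
        have e : (2 : ℝ) ^ (n + 2) * (1 / 2) ^ (n + 1) = 2 := by
          rw [one_div, inv_pow, pow_succ 2 (n + 1)]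
          field_simp
        have : (2 : ℝ) ^ (n + 2) * (1 / 2) ^ (n + 1) ≤ 2 ^ (n + 2) * y :=
          mul_le_mul_of_nonneg_left h.le (by positivity)
        linarith
      have h3 : Real.log 2 ≤ Real.log (max (2 ^ (n + 2) * y) 1) :=
        Real.log_le_log (by norm_num) h2
      have h4 : (1 / 4 : ℝ) ^ n ≤ ((1 / 4) ^ n / Real.log 2) *
          Real.log (max (2 ^ (n + 2) * y) 1) := by
        calc (1 / 4 : ℝ) ^ n = ((1 / 4) ^ n / Real.log 2) * Real.log 2 := by
              field_simp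
          _ ≤ _ := mul_le_mul_of_nonneg_left h3 (by positivity)
      have h5 : (0 : ℝ) ≤ (1 / 4) ^ (n + 1) := by positivity
      linarith

/-- the bound of `∑ |v_j|^2` -/
theorem sumsq {u v : Fin m → ℂ}
    (hG : ∀ w : ℂ, ∏ k, (1 - u k * w) = ∏ j, (1 - v j * w) -
      w * ∑ j, v j * ∏ i ∈ Finset.univ.erase j, (1 - v i * w)) {V : ℝ} (hV : 0 < V)
    (hv : ∀ j, ‖v j‖ ≤ V) :
    ∑ j, ‖v j‖ ^ 2 ≤ 12 * V * ∑ k, ‖u k‖ := by
  set B : ℝ := ∑ k, ‖u k‖ with hB
  have hB0 : 0 ≤ B := Finset.sum_nonneg fun _ _ => norm_nonneg _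
  have hl : 0 < Real.log 2 := Real.log_pos (by norm_num)
  have h1 : ∀ n : ℕ, ∑ j, (‖v j‖ / V) ^ 2 ≤ m * (1 / 4) ^ n + 8 * B / (V * Real.log 2) := by
    intro n
    have a1 : ∑ j, (‖v j‖ / V) ^ 2 ≤ ∑ j, ((1 / 4 : ℝ) ^ n + ∑ i ∈ Finset.range n,
        ((1 / 4) ^ i / Real.log 2) * Real.log (max (2 ^ (i + 2) * (‖v j‖ / V)) 1)) := by
      refine Finset.sum_le_sum fun j _ => dyadic (by positivity) ?_ n
      rw [div_le_one hV]
      exact hv j
    rw [Finset.sum_add_distrib, Finset.sum_const, Finset.card_univ, Fintype.card_fin,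
      nsmul_eq_mul, Finset.sum_comm] at a1
    have a2 : ∑ i ∈ Finset.range n, ∑ j, ((1 / 4 : ℝ) ^ i / Real.log 2) *
        Real.log (max (2 ^ (i + 2) * (‖v j‖ / V)) 1) ≤
        ∑ i ∈ Finset.range n, (4 * B / (V * Real.log 2)) * (1 / 2) ^ i := by
      refine Finset.sum_le_sum fun i _ => ?_
      rw [← Finset.mul_sum]
      have b1 := jen hG (R := 2 ^ (i + 2) / V) (by positivity)
      have b2 : ∑ j, Real.log (max (2 ^ (i + 2) * (‖v j‖ / V)) 1) =
          ∑ j, Real.log (max (2 ^ (i + 2) / V * ‖v j‖) 1) := by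
        refine Finset.sum_congr rfl fun j _ => ?_
        rw [mul_div_assoc', div_mul_eq_mul_div]
      rw [b2]
      calc _ ≤ ((1 / 4 : ℝ) ^ i / Real.log 2) * (2 ^ (i + 2) / V * B) :=
            mul_le_mul_of_nonneg_left b1 (by positivity)
        _ = _ := by
          have : (1 / 4 : ℝ) ^ i = (1 / 2) ^ i * (1 / 2) ^ i := by
            rw [← mul_pow]; norm_num
          rw [this, pow_add]
          have h2 : (1 / 2 : ℝ) ^ i * 2 ^ i = 1 := by rw [← mul_pow]; norm_num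
          have h3 : (1 / 2 : ℝ) ^ i * (1 / 2) ^ i / Real.log 2 * (2 ^ i * 2 ^ 2 / V * B) =
              ((1 / 2 : ℝ) ^ i * 2 ^ i) * (4 * B / (V * Real.log 2) * (1 / 2) ^ i) := by
            ring
          rw [h3, h2, one_mul]
    have a3 : ∑ i ∈ Finset.range n, (1 / 2 : ℝ) ^ i ≤ 2 := sum_geometric_two_le n
    have a4 : ∑ i ∈ Finset.range n, (4 * B / (V * Real.log 2)) * (1 / 2 : ℝ) ^ i ≤
        8 * B / (V * Real.log 2) := by
      rw [← Finset.mul_sum]
      calc _ ≤ (4 * B / (V * Real.log 2)) * 2 := mul_le_mul_of_nonneg_left a3 (by positivity)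
        _ = _ := by ring
    linarith
  have h2 : ∑ j, (‖v j‖ / V) ^ 2 ≤ m * 0 + 8 * B / (V * Real.log 2) := by
    refine ge_of_tendsto' (x := Filter.atTop) ?_ h1
    refine Filter.Tendsto.add_const _ (Filter.Tendsto.const_mul _ ?_)
    exact tendsto_pow_atTop_nhds_zero_of_lt_one (by norm_num) (by norm_num)
  have h3 : ∑ j, ‖v j‖ ^ 2 = V ^ 2 * ∑ j, (‖v j‖ / V) ^ 2 := by
    rw [Finset.mul_sum]
    refine Finset.sum_congr rfl fun j _ => ?_
    field_simp
  rw [h3]
  have hl2 : 0.6931471803 < Real.log 2 := Real.log_two_gt_d9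
  calc _ ≤ V ^ 2 * (m * 0 + 8 * B / (V * Real.log 2)) :=
        mul_le_mul_of_nonneg_left h2 (by positivity)
    _ = 8 / Real.log 2 * (V * B) := by field_simp; ring
    _ ≤ 12 * (V * B) := by
      refine mul_le_mul_of_nonneg_right ?_ (by positivity)
      rw [div_le_iff₀ hl]
      linarith
    _ = _ := by ring

end Pool.Agent.N816.PM
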