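import Pool.Agent.N816.PM.Jen

/-!
The mean of `|w - a|^(-2)` over the critical points is at least `1` when `a` is isolated at the
scale `1 / n`.
-/

set_option autoImplicit false

namespace Pool.Agent.N816.PM

open Polynomial Set

variable {m : ℕ}

/-- the inequality for a point of the unit disc -/
theorem pt {a : ℝ} {w : ℂ} (hw : ‖w‖ ≤ 1) (hne : w ≠ a) :
    1 - 2 * a * (((a : ℂ) - w)⁻¹).re ≤ (1 - a ^ 2) * ‖((a : ℂ) - w)⁻¹‖ ^ 2 := by
  have hd : (a : ℂ) - w ≠ 0 := sub_ne_zero.2 hne.symm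
  set d : ℂ := (a : ℂ) - w with hdd
  have hn : 0 < Complex.normSq d := Complex.normSq_pos.2 hd
  have hw2 : Complex.normSq w ≤ 1 := by
    rw [Complex.normSq_eq_norm_sq]
    have := norm_nonneg w
    nlinarith
  have e1 : Complex.normSq w = a ^ 2 - 2 * a * d.re + Complex.normSq d := by
    have : w = (a : ℂ) - d := by rw [hdd]; ring
    rw [this, Complex.normSq_apply, Complex.normSq_apply]
    simp only [Complex.sub_re, Complex.sub_im, Complex.ofReal_re, Complex.ofReal_im]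
    ring
  have e2 : (d⁻¹).re = d.re / Complex.normSq d := Complex.inv_re d
  have e3 : ‖d⁻¹‖ ^ 2 = (Complex.normSq d)⁻¹ := by
    rw [norm_inv, inv_pow, ← Complex.normSq_eq_norm_sq]
  rw [e2, e3]
  have h : (1 - a ^ 2) * (Complex.normSq d)⁻¹ - (1 - 2 * a * (d.re / Complex.normSq d)) =
      (1 - Complex.normSq w) * (Complex.normSq d)⁻¹ := by
    rw [e1]
    field_simp
    ring
  have h2 : 0 ≤ (1 - Complex.normSq w) * (Complex.normSq d)⁻¹ :=
    mul_nonneg (by linarith) (inv_nonneg.2 hn.le)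
  linarith

/-- the contradiction -/
theorem contra {a : ℝ} (ha0 : 0 < a) (ha1 : a ≤ 1) (hm : 1 ≤ m) {u v : Fin m → ℂ}
    (hG : ∀ w : ℂ, ∏ k, (1 - u k * w) = ∏ j, (1 - v j * w) -
      w * ∑ j, v j * ∏ i ∈ Finset.univ.erase j, (1 - v i * w))
    (hu : ∀ k, 1 - 2 * a * (u k).re ≤ (1 - a ^ 2) * ‖u k‖ ^ 2)
    (hv : ∀ j, 10 ^ 4 * ‖v j‖ ≤ a ^ 2 * m) (hbig : 5000 ≤ a ^ 2 * m)
    (hS : ∑ k, ‖u k‖ ^ 2 < m) : False := by
  have hm' : (1 : ℝ) ≤ m := by exact_mod_cast hm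
  have hm0 : (0 : ℝ) < m := by linarith
  obtain ⟨p1, -⟩ := Pool.Agent.TH298.MI.power_sums hG
  set τ : ℂ := ∑ k, u k with hτ
  set S : ℝ := ∑ k, ‖u k‖ ^ 2 with hSS
  have hS0 : 0 ≤ S := Finset.sum_nonneg fun _ _ => by positivity
  have hre : a * m / 2 ≤ τ.re := by
    have h1 : ∑ k, (1 - 2 * a * (u k).re) ≤ ∑ k, (1 - a ^ 2) * ‖u k‖ ^ 2 :=
      Finset.sum_le_sum fun k _ => hu k
    rw [Finset.sum_sub_distrib, Finset.sum_const, Finset.card_univ, Fintype.card_fin,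
      nsmul_eq_mul, mul_one, ← Finset.mul_sum, ← Finset.mul_sum, ← Complex.re_sum, ← hτ,
      ← hSS] at h1
    have h2 : (1 - a ^ 2) * S ≤ (1 - a ^ 2) * m :=
      mul_le_mul_of_nonneg_left hS.le (by nlinarith)
    have h3 : a ^ 2 * m ≤ 2 * a * τ.re := by nlinarith
    have : a * (a * m / 2) ≤ a * τ.re := by nlinarith
    exact le_of_mul_le_mul_left this ha0
  have ham : 0 < a * m := by positivity
  have hτn : a * m / 2 ≤ ‖τ‖ := hre.trans (Complex.re_le_norm τ)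
  have hτ0 : τ ≠ 0 := by
    rw [← norm_pos_iff]; linarith
  have hτp : 0 < ‖τ‖ := norm_pos_iff.2 hτ0
  set x : ℂ := 2 * Real.pi * Complex.I / τ with hx
  have hx1 : τ * x = 2 * Real.pi * Complex.I := by rw [hx]; field_simp
  have hx2 : (∑ j, v j) * x = Real.pi * Complex.I := by
    rw [p1] at hx1
    linear_combination hx1 / 2
  set r : ℝ := ‖x‖ with hr
  have hr0 : 0 ≤ r := norm_nonneg _
  have hr1 : r * (a * m) ≤ 12.5664 := by
    have e : r * ‖τ‖ = 2 * Real.pi := by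
      rw [hr, ← norm_mul, mul_comm, hx1, norm_mul, norm_mul, Complex.norm_I, mul_one,
        Complex.norm_real, Real.norm_of_nonneg Real.pi_pos.le]
      simp
    have hpi := Real.pi_lt_d4
    nlinarith
  have hr2 : r ^ 2 * (a ^ 2 * m ^ 2) ≤ 158 := by
    have : r ^ 2 * (a ^ 2 * m ^ 2) = (r * (a * m)) ^ 2 := by ring
    rw [this]
    have h0 : 0 ≤ r * (a * m) := by positivity
    nlinarith
  have hr3 : m * r ^ 2 ≤ 158 / 5000 := by
    have h1 : (m * r ^ 2) * 5000 ≤ (m * r ^ 2) * (a ^ 2 * m) :=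
      mul_le_mul_of_nonneg_left hbig (by positivity)
    have h2 : (m * r ^ 2) * (a ^ 2 * m) = r ^ 2 * (a ^ 2 * m ^ 2) := by ring
    rw [h2] at h1
    linarith
  have huS : ∀ k, ‖u k‖ ^ 2 ≤ S := fun k =>
    Finset.single_le_sum (f := fun k => ‖u k‖ ^ 2) (fun _ _ => by positivity) (Finset.mem_univ k)
  -- upper bound
  have hup : ‖∏ j, (1 - v j * x)‖ ≤ 6 * (m * r ^ 2) := by
    refine upper hG hx1 ?_ ?_ (by linarith)
    · intro k
      have h1 : ‖u k * x‖ ^ 2 ≤ 1 := by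
        rw [norm_mul, mul_pow, ← hr]
        calc ‖u k‖ ^ 2 * r ^ 2 ≤ m * r ^ 2 :=
              mul_le_mul_of_nonneg_right ((huS k).trans hS.le) (by positivity)
          _ ≤ 1 := by linarith
      have h2 := norm_nonneg (u k * x)
      nlinarith
    · calc ∑ k, ‖u k * x‖ ^ 2 = S * r ^ 2 := by
            rw [hSS, Finset.sum_mul]
            refine Finset.sum_congr rfl fun k _ => ?_
            rw [norm_mul, mul_pow]
        _ ≤ m * r ^ 2 := mul_le_mul_of_nonneg_right hS.le (by positivity)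
  -- the sum of the norms
  have hB : ∑ k, ‖u k‖ ≤ m := by
    have h1 := sq_sum_le_card_mul_sum_sq (s := (Finset.univ : Finset (Fin m)))
      (f := fun k => ‖u k‖)
    rw [Finset.card_univ, Fintype.card_fin, ← hSS] at h1
    have h2 : (m : ℝ) * S ≤ m * m := mul_le_mul_of_nonneg_left hS.le hm0.le
    have h3 : 0 ≤ ∑ k, ‖u k‖ := Finset.sum_nonneg fun _ _ => norm_nonneg _
    nlinarith
  set V : ℝ := a ^ 2 * m / 10 ^ 4 with hV
  have hV0 : 0 < V := by positivity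
  have hvV : ∀ j, ‖v j‖ ≤ V := by
    intro j
    rw [hV, le_div_iff₀ (by norm_num)]
    linarith [hv j]
  have hsq := sumsq hG hV0 hvV
  have hsq2 : ∑ j, ‖v j‖ ^ 2 ≤ 12 * V * m :=
    hsq.trans (mul_le_mul_of_nonneg_left hB (by positivity))
  have hsq3 : ∑ j, ‖v j * x‖ ^ 2 ≤ 12 * 158 / 10 ^ 4 := by
    calc ∑ j, ‖v j * x‖ ^ 2 = (∑ j, ‖v j‖ ^ 2) * r ^ 2 := by
          rw [Finset.sum_mul]
          refine Finset.sum_congr rfl fun k _ => ?_
          rw [norm_mul, mul_pow]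
      _ ≤ 12 * V * m * r ^ 2 := mul_le_mul_of_nonneg_right hsq2 (by positivity)
      _ = 12 * (r ^ 2 * (a ^ 2 * m ^ 2)) / 10 ^ 4 := by rw [hV]; ring
      _ ≤ _ := by
        refine div_le_div_of_nonneg_right ?_ (by norm_num)
        linarith
  have hlow : Real.exp (-(6 * ∑ j, ‖v j * x‖ ^ 2)) ≤ ‖∏ j, (1 - v j * x)‖ := by
    refine lower hx2 fun j => ?_
    rw [norm_mul, ← hr]
    calc ‖v j‖ * r ≤ V * r := mul_le_mul_of_nonneg_right (hvV j) hr0
      _ = a * (r * (a * m)) / 10 ^ 4 := by rw [hV]; ring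
      _ ≤ 1 * 12.5664 / 10 ^ 4 := by
        refine div_le_div_of_nonneg_right ?_ (by norm_num)
        exact mul_le_mul ha1 hr1 (by positivity) (by norm_num)
      _ ≤ 2 / 5 := by norm_num
  have hexp : (0.23 : ℝ) ≤ Real.exp (-(6 * ∑ j, ‖v j * x‖ ^ 2)) := by
    have h1 : Real.exp (-(1.1376 : ℝ)) ≤ Real.exp (-(6 * ∑ j, ‖v j * x‖ ^ 2)) := by
      refine Real.exp_le_exp.2 ?_
      linarith
    refine le_trans ?_ h1
    have h2 : Real.exp (-(1.1376 : ℝ)) = Real.exp (-(0.3792 : ℝ)) ^ 3 := by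
      rw [← Real.exp_nat_mul]
      norm_num
    rw [h2]
    have h3 : (0.6208 : ℝ) ≤ Real.exp (-(0.3792 : ℝ)) := by
      have := Real.add_one_le_exp (-(0.3792 : ℝ))
      linarith
    calc (0.23 : ℝ) ≤ 0.6208 ^ 3 := by norm_num
      _ ≤ _ := pow_le_pow_left₀ (by norm_num) h3 3
  linarith

/-- **main theorem** -/
theorem main (hm : 1 ≤ m) {a : ℝ} (ha0 : 0 < a) (ha1 : a ≤ 1) {z : Fin m → ℂ}
    (hz : ∀ j, ‖z j‖ ≤ 1) (hsep : ∀ j, 10 ^ 4 / (a ^ 2 * m) ≤ ‖z j - a‖) :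
    (a : ℂ) ∉ (derivative ((X - C (a : ℂ)) * ∏ j, (X - C (z j)))).roots ∧
    (m : ℝ) ≤ (((derivative ((X - C (a : ℂ)) * ∏ j, (X - C (z j)))).roots).map
          (fun w : ℂ => (‖w - (a : ℂ)‖ ^ 2)⁻¹)).sum := by
  have hm0 : (0 : ℝ) < m := by exact_mod_cast hm
  have ham : 0 < a ^ 2 * m := by positivity
  set P : ℂ[X] := (X - C (a : ℂ)) * ∏ j, (X - C (z j)) with hP
  have hprod : ∏ j, (X - C (z j)) =
      ((Finset.univ.val.map z).map fun b => (X - C b : ℂ[X])).prod := by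
    rw [Multiset.map_map]
    rfl
  have hQ0 : (∏ j, (X - C (z j)) : ℂ[X]) ≠ 0 :=
    Finset.prod_ne_zero_iff.2 fun j _ => X_sub_C_ne_zero _
  have hP0 : P ≠ 0 := mul_ne_zero (X_sub_C_ne_zero _) hQ0
  have hroots : P.roots = (a : ℂ) ::ₘ Finset.univ.val.map z := by
    rw [hP, roots_mul hP0, roots_X_sub_C, hprod, roots_multiset_prod_X_sub_C]
    rfl
  have hdeg : P.natDegree = m + 1 := by
    have h1 : P.natDegree = P.roots.card :=
      (IsAlgClosed.splits P).natDegree_eq_card_roots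
    rw [h1, hroots]
    simp
  have hane : ∀ j, z j ≠ a := by
    intro j h
    have := hsep j
    rw [h, sub_self, norm_zero] at this
    have h2 : 0 < (10 : ℝ) ^ 4 / (a ^ 2 * m) := by positivity
    linarith
  have hda : P.derivative.eval (a : ℂ) = ∏ j, ((a : ℂ) - z j) := by
    rw [hP, derivative_mul]
    simp [eval_prod]
  have hd : P.derivative.eval (a : ℂ) ≠ 0 := by
    rw [hda]
    exact Finset.prod_ne_zero_iff.2 fun j _ => sub_ne_zero.2 (hane j).symm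
  have hzr : ∀ y ∈ P.roots, ‖y‖ ≤ 1 := by
    intro y hy
    rw [hroots, Multiset.mem_cons] at hy
    rcases hy with h | h
    · rw [h, Complex.norm_real, Real.norm_of_nonneg ha0.le]; exact ha1
    · obtain ⟨j, -, rfl⟩ := Multiset.mem_map.1 h
      exact hz j
  have har : (a : ℂ) ∈ P.roots := by rw [hroots]; exact Multiset.mem_cons_self _ _
  refine ⟨fun h => hd (mem_roots'.1 h).2, ?_⟩
  obtain ⟨z', w, e1, e2, hwa, hw1, hza, hG⟩ :=
    Pool.Agent.TH298.MI.data hdeg har hd hzr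
  rw [hroots, Multiset.erase_cons_head] at e1
  have hz' : ∀ j, ∃ i, z' j = z i := by
    intro j
    have : z' j ∈ Finset.univ.val.map z := by
      rw [e1]; exact Multiset.mem_map.2 ⟨j, Finset.mem_univ_val j, rfl⟩
    obtain ⟨i, -, hi⟩ := Multiset.mem_map.1 this
    exact ⟨i, hi.symm⟩
  have hv : ∀ j, 10 ^ 4 * ‖((a : ℂ) - z' j)⁻¹‖ ≤ a ^ 2 * m := by
    intro j
    obtain ⟨i, hi⟩ := hz' j
    have h1 := hsep i
    rw [hi, norm_inv, norm_sub_rev]
    have h0 : 0 < ‖z i - a‖ := norm_pos_iff.2 (sub_ne_zero.2 (hane i))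
    rw [div_le_iff₀ ham] at h1
    rw [← div_eq_mul_inv, div_le_iff₀ h0]
    linarith
  have hbig : 5000 ≤ a ^ 2 * m := by
    obtain ⟨i⟩ : Nonempty (Fin m) := ⟨⟨0, by omega⟩⟩
    have h1 := hsep i
    rw [div_le_iff₀ ham] at h1
    have h2 : ‖z i - a‖ ≤ 2 := by
      calc ‖z i - a‖ ≤ ‖z i‖ + ‖(a : ℂ)‖ := norm_sub_le _ _
        _ ≤ 1 + 1 := add_le_add (hz i) (by
            rw [Complex.norm_real, Real.norm_of_nonneg ha0.le]; exact ha1)
        _ = 2 := by norm_num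
    nlinarith
  have hsum : ((P.derivative.roots).map (fun w : ℂ => (‖w - (a : ℂ)‖ ^ 2)⁻¹)).sum =
      ∑ k, ‖((a : ℂ) - w k)⁻¹‖ ^ 2 := by
    rw [e2, Multiset.map_map]
    change ∑ k, _ = _
    refine Finset.sum_congr rfl fun k _ => ?_
    simp only [Function.comp]
    rw [norm_inv, inv_pow, norm_sub_rev]
  rw [hsum]
  by_contra hcon
  rw [not_le] at hcon
  exact contra ha0 ha1 hm hG (fun k => pt (hw1 k) (hwa k)) hv hbig hcon

end Pool.Agent.N816.PM
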