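import Mathlib

/-!
Statements for project PM (power mean of order -2 of the distances to the critical points).
-/

set_option autoImplicit false

namespace Pool.Agent.N816.PM

open Set

/-- the functional equation `∏ (1 - u_k x) = (x ∏ (1 - v_j x))'` -/
def FE {m : ℕ} (u v : Fin m → ℂ) : Prop :=
  ∀ x : ℂ, ∏ k, (1 - u k * x) = ∏ j, (1 - v j * x) -
      x * ∑ j, v j * ∏ i ∈ Finset.univ.erase j, (1 - v i * x)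

/-- PATH -/
def S_PATH : Prop :=
  ∀ c : ℝ, 0 < c → ∀ δ : ℝ, 0 < δ → ∃ N : ℕ, ∀ m : ℕ, N ≤ m → ∀ u v : Fin m → ℂ, FE u v →
    ∑ k, ‖u k‖ ^ 2 ≤ m → ∀ x : ℂ, ‖x‖ ≤ 2 → c * m ≤ ((∑ k, u k) * x).re →
    (∀ s ∈ Icc (0 : ℝ) 1, ‖∏ k, (1 - u k * ((s : ℂ) * x))‖ ≤ Real.exp (-(c * m * s))) →
    ‖x * ∏ j, (1 - v j * x) - (∑ k, u k)⁻¹‖ ≤ δ / m

/-- LEAD -/
def S_LEAD : Prop :=
  ∀ (m : ℕ) (u v : Fin m → ℂ), FE u v → ∏ k, u k = (m + 1) * ∏ j, v j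

/-- CIRC -/
def S_CIRC : Prop :=
  ∀ (m : ℕ) (a : ℝ), 0 ≤ a → a ≤ 1 → ∀ (z u : Fin m → ℂ), (∀ j, ‖z j‖ ≤ 1) →
    (∀ j, z j ≠ a) → FE u (fun j => ((a : ℂ) - z j)⁻¹) → ∀ x : ℂ, ‖(a : ℂ) - x‖ = 1 →
    (m + 1) * ‖x * ∏ j, (1 - ((a : ℂ) - z j)⁻¹ * x)‖ ≤ 2 * ‖∏ k, (1 - u k * x)‖

/-- `|u|^2 - 1 - log |u|^2` -/
noncomputable def phi1 (u : ℂ) : ℝ := ‖u‖ ^ 2 - 1 - Real.log (‖u‖ ^ 2)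

/-- `(1 - a^2) |u|^2 - 1 + 2 a Re u` -/
noncomputable def phi2 (a : ℝ) (u : ℂ) : ℝ := (1 - a ^ 2) * ‖u‖ ^ 2 - 1 + 2 * a * u.re

/-- the point `a/2 + i sqrt(1 - a^2/4)` of the unit circle -/
noncomputable def up (a : ℝ) : ℂ := ⟨a / 2, Real.sqrt (1 - a ^ 2 / 4)⟩

/-- DIST -/
def S_DIST : Prop :=
  ∀ (a : ℝ), 0 < a → a ≤ 1 → ∀ u : ℂ, u ≠ 0 → 0 ≤ phi2 a u →
    (0 ≤ u.im → ‖u - up a‖ ≤ (10 / a) * (phi1 u + phi2 a u + Real.sqrt (phi1 u))) ∧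
    (u.im ≤ 0 → ‖u - (starRingEnd ℂ) (up a)‖ ≤
      (10 / a) * (phi1 u + phi2 a u + Real.sqrt (phi1 u))) ∧
    |‖u‖ ^ 2 - 1| ≤ 3 * (phi1 u + Real.sqrt (phi1 u))

/-- DECAY: `d` is a bound of the mean distance -/
def S_DECAY : Prop :=
  ∀ e : ℝ, 0 < e → ∃ ξ c : ℝ, 0 < ξ ∧ 0 < c ∧ ∀ a : ℝ, e ≤ a → a ≤ 1 → ∀ (m : ℕ)
    (u : Fin m → ℂ) (d : Fin m → ℝ), ∑ k, ‖u k‖ ^ 2 ≤ m →
    (∀ k, 0 ≤ (u k).im → ‖u k - up a‖ ≤ d k) →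
    (∀ k, (u k).im < 0 → ‖u k - (starRingEnd ℂ) (up a)‖ ≤ d k) →
    ∑ k, d k ≤ ξ * m → ∑ k, |‖u k‖ ^ 2 - 1| ≤ ξ * m → 0 ≤ (∑ k, u k).im →
    a / 2 * m ≤ (∑ k, u k).re →
    c * m ≤ ((∑ k, u k) * (starRingEnd ℂ) (up a)).re ∧
    ∀ s ∈ Icc (0 : ℝ) 1,
      ‖∏ k, (1 - u k * ((s : ℂ) * (starRingEnd ℂ) (up a)))‖ ≤ Real.exp (-(c * m * s))

end Pool.Agent.N816.PM
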